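import Pool.Agent.Helper99.BK.Stmts

set_option autoImplicit false

/-! # Reduced fundamental units of totally real cubic fields -/

namespace Pool.Helper99.BK

open NumberField

/-- logarithm of the absolute value of a conjugate of a unit, as an additive map -/
noncomputable def ubrH {K : Type} [Field K] [NumberField K] (σ : K →+* ℂ) :
    Additive (𝓞 K)ˣ →+ ℝ where
  toFun u := Real.log ‖σ (((Additive.toMul u : (𝓞 K)ˣ) : 𝓞 K) : K)‖
  map_zero' := by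
    have e1 : (((1 : 𝓞 K)) : K) = 1 := map_one (algebraMap (𝓞 K) K)
    rw [toMul_zero, Units.val_one, e1, map_one, norm_one, Real.log_one]
  map_add' u v := by
    have hu : σ (((Additive.toMul u : (𝓞 K)ˣ) : 𝓞 K) : K) ≠ 0 := by
      rw [Ne, map_eq_zero]
      exact_mod_cast (Additive.toMul u).ne_zero
    have hv : σ (((Additive.toMul v : (𝓞 K)ˣ) : 𝓞 K) : K) ≠ 0 := by
      rw [Ne, map_eq_zero]
      exact_mod_cast (Additive.toMul v).ne_zero
    have e1 : ∀ a b : 𝓞 K, ((a * b : 𝓞 K) : K) = (a : K) * (b : K) :=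
      fun a b => map_mul (algebraMap (𝓞 K) K) a b
    rw [toMul_add, Units.val_mul, e1, map_mul, norm_mul,
      Real.log_mul (norm_ne_zero_iff.mpr hu) (norm_ne_zero_iff.mpr hv)]

/-- logarithm of the absolute value of a conjugate of a unit -/
noncomputable def ubrL {K : Type} [Field K] [NumberField K] (σ : K →+* ℂ) (u : (𝓞 K)ˣ) : ℝ :=
  Real.log ‖σ ((u : 𝓞 K) : K)‖

theorem ubrL_eq {K : Type} [Field K] [NumberField K] (σ : K →+* ℂ) (u : (𝓞 K)ˣ) :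
    ubrL σ u = ubrH σ (Additive.ofMul u) := rfl

theorem ubrL_mul {K : Type} [Field K] [NumberField K] (σ : K →+* ℂ) (u v : (𝓞 K)ˣ) :
    ubrL σ (u * v) = ubrL σ u + ubrL σ v := by
  rw [ubrL_eq, ubrL_eq, ubrL_eq, ofMul_mul, map_add]

theorem ubrL_zpow {K : Type} [Field K] [NumberField K] (σ : K →+* ℂ) (u : (𝓞 K)ˣ) (m : ℤ) :
    ubrL σ (u ^ m) = m * ubrL σ u := by
  rw [ubrL_eq, ubrL_eq, ofMul_zpow, map_zsmul, zsmul_eq_mul]

/-- sum of squares -/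
noncomputable def ubrq {K : Type} [Field K] [NumberField K] (u : (𝓞 K)ˣ) : ℝ :=
  ∑ σ : K →+* ℂ, (ubrL σ u) ^ 2

/-- bilinear form -/
noncomputable def ubrB {K : Type} [Field K] [NumberField K] (u v : (𝓞 K)ˣ) : ℝ :=
  ∑ σ : K →+* ℂ, ubrL σ u * ubrL σ v

theorem ubrq_nonneg {K : Type} [Field K] [NumberField K] (u : (𝓞 K)ˣ) : 0 ≤ ubrq u :=
  Finset.sum_nonneg fun _ _ => sq_nonneg _

theorem ubrB_comm {K : Type} [Field K] [NumberField K] (u v : (𝓞 K)ˣ) :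
    ubrB u v = ubrB v u :=
  Finset.sum_congr rfl fun _ _ => mul_comm _ _

theorem ubrq_form {K : Type} [Field K] [NumberField K] (u v : (𝓞 K)ˣ) (m n : ℤ) :
    ubrq (u ^ m * v ^ n) = (m : ℝ) ^ 2 * ubrq u + (n : ℝ) ^ 2 * ubrq v +
      2 * (m : ℝ) * (n : ℝ) * ubrB u v := by
  unfold ubrq ubrB
  rw [Finset.mul_sum, Finset.mul_sum, Finset.mul_sum, ← Finset.sum_add_distrib,
    ← Finset.sum_add_distrib]
  refine Finset.sum_congr rfl fun σ _ => ?_
  rw [ubrL_mul, ubrL_zpow, ubrL_zpow]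
  ring

/-- finiteness -/
theorem ubr_finite (K : Type) [Field K] [NumberField K] (R : ℝ) :
    {u : (𝓞 K)ˣ | ubrq u ≤ R}.Finite := by
  have h1 := NumberField.Embeddings.finite_of_norm_le K ℂ (Real.exp (R + 1))
  refine Set.Finite.of_finite_image (f := fun u : (𝓞 K)ˣ => ((u : 𝓞 K) : K)) ?_ ?_
  · refine h1.subset ?_
    rintro _ ⟨u, hu, rfl⟩
    refine ⟨(u : 𝓞 K).isIntegral_coe, fun φ => ?_⟩
    have h2 : (ubrL φ u) ^ 2 ≤ R :=
      le_trans (Finset.single_le_sum (f := fun σ : K →+* ℂ => (ubrL σ u) ^ 2)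
        (fun _ _ => sq_nonneg _) (Finset.mem_univ φ)) hu
    have h3 : ubrL φ u ≤ R + 1 := by nlinarith [sq_nonneg (ubrL φ u - 1 / 2)]
    have hpos : 0 < ‖φ ((u : 𝓞 K) : K)‖ := by
      rw [norm_pos_iff, Ne, map_eq_zero]
      exact_mod_cast u.ne_zero
    calc ‖φ ((u : 𝓞 K) : K)‖ = Real.exp (ubrL φ u) := (Real.exp_log hpos).symm
      _ ≤ Real.exp (R + 1) := Real.exp_le_exp.mpr h3
  · intro u _ v _ h
    exact Units.ext (RingOfIntegers.ext h)

/-- pairs of independent generators modulo signs -/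
def ubrP (K : Type) [Field K] [NumberField K] (x : (𝓞 K)ˣ × (𝓞 K)ˣ) : Prop :=
  (∀ u : (𝓞 K)ˣ, ∃ m n : ℤ, u = x.1 ^ m * x.2 ^ n ∨ u = -(x.1 ^ m * x.2 ^ n)) ∧
  ∀ m n : ℤ, (x.1 ^ m * x.2 ^ n = 1 ∨ x.1 ^ m * x.2 ^ n = -1) → m = 0 ∧ n = 0

theorem ubrP_swap {K : Type} [Field K] [NumberField K] {x : (𝓞 K)ˣ × (𝓞 K)ˣ}
    (h : ubrP K x) : ubrP K (x.2, x.1) := by
  refine ⟨fun u => ?_, fun m n hmn => ?_⟩
  · obtain ⟨m, n, h1⟩ := h.1 u
    refine ⟨n, m, ?_⟩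
    simpa only [mul_comm] using h1
  · have h1 := h.2 n m (by simpa only [mul_comm] using hmn)
    exact ⟨h1.2, h1.1⟩

theorem ubrP_shift {K : Type} [Field K] [NumberField K] {x : (𝓞 K)ˣ × (𝓞 K)ˣ}
    (h : ubrP K x) (s : ℤ) : ubrP K (x.1, x.1 ^ s * x.2) := by
  have key : ∀ m n : ℤ, x.1 ^ m * (x.1 ^ s * x.2) ^ n = x.1 ^ (m + s * n) * x.2 ^ n := by
    intro m n
    rw [mul_zpow, ← zpow_mul, ← mul_assoc, ← zpow_add]
  refine ⟨fun u => ?_, fun m n hmn => ?_⟩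
  · obtain ⟨m, n, h1⟩ := h.1 u
    refine ⟨m - s * n, n, ?_⟩
    simp only [key, sub_add_cancel]
    exact h1
  · simp only [key] at hmn
    obtain ⟨h1, h2⟩ := h.2 _ _ hmn
    refine ⟨?_, h2⟩
    rw [h2, mul_zero, add_zero] at h1
    exact h1

theorem ubrP_exists (K : Type) [Field K] [NumberField K] (hK : Module.finrank ℚ K = 3)
    (hc : Fintype.card (InfinitePlace K) = 3) : ∃ x, ubrP K x := by
  have hr : Units.rank K = 2 := by
    unfold Units.rank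
    rw [hc]
  have hodd : Odd (Module.finrank ℚ K) := by
    rw [hK]
    decide
  obtain ⟨e⟩ : Nonempty (Fin 2 ≃ Fin (Units.rank K)) := by
    rw [hr]
    exact ⟨Equiv.refl _⟩
  have hprod : ∀ f : Fin (Units.rank K) → ℤ, ∏ i, Units.fundSystem K i ^ f i =
      Units.fundSystem K (e 0) ^ f (e 0) * Units.fundSystem K (e 1) ^ f (e 1) := by
    intro f
    rw [← Equiv.prod_comp e, Fin.prod_univ_two]
  refine ⟨(Units.fundSystem K (e 0), Units.fundSystem K (e 1)), fun u => ?_, fun m n hmn => ?_⟩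
  · obtain ⟨ζe, h1, -⟩ := Units.exist_unique_eq_mul_prod K u
    rw [hprod] at h1
    refine ⟨ζe.2 (e 0), ζe.2 (e 1), ?_⟩
    rcases Units.torsion_eq_one_or_neg_one_of_odd_finrank hodd ζe.1 with h2 | h2
    · left
      rw [h1, h2, one_mul]
    · right
      rw [h1, h2, neg_one_mul]
  · let f : Fin (Units.rank K) → ℤ := fun i => if i = e 0 then m else n
    have hf0 : f (e 0) = m := by simp [f]
    have hne : e 1 ≠ e 0 := by
      rw [Ne, e.injective.eq_iff]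
      decide
    have hf1 : f (e 1) = n := by simp [f, hne]
    have hpf : ∏ i, Units.fundSystem K i ^ f i =
        Units.fundSystem K (e 0) ^ m * Units.fundSystem K (e 1) ^ n := by
      rw [hprod, hf0, hf1]
    have hzero : ∀ ζ : Units.torsion K,
        (ζ : (𝓞 K)ˣ) * ∏ i, Units.fundSystem K i ^ f i = 1 → f = 0 := by
      intro ζ hζ
      have h1 := (Units.exist_unique_eq_mul_prod K (1 : (𝓞 K)ˣ)).unique
        (y₁ := (ζ, f)) (y₂ := (1, 0)) hζ.symm (by simp)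
      exact congrArg Prod.snd h1
    have hf : f = 0 := by
      rcases hmn with h1 | h1
      · apply hzero 1
        rw [hpf]
        simpa using h1
      · apply hzero ⟨-1, neg_one_mem_torsion⟩
        rw [hpf]
        simp only
        rw [h1]
        simp
    constructor
    · rw [← hf0, hf]
      rfl
    · rw [← hf1, hf]
      rfl

/-- existence of a minimal pair -/
theorem ubr_min {K : Type} [Field K] [NumberField K] (h : ∃ x, ubrP K x) :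
    ∃ x, ubrP K x ∧ ∀ y, ubrP K y → ubrq x.1 + ubrq x.2 ≤ ubrq y.1 + ubrq y.2 := by
  obtain ⟨x0, hx0⟩ := h
  set R := ubrq x0.1 + ubrq x0.2 with hR
  have hfin : {x : (𝓞 K)ˣ × (𝓞 K)ˣ | ubrP K x ∧ ubrq x.1 + ubrq x.2 ≤ R}.Finite := by
    refine ((ubr_finite K R).prod (ubr_finite K R)).subset ?_
    rintro ⟨a, b⟩ ⟨-, hab⟩
    simp only [Set.mem_prod, Set.mem_ofPred_eq] at hab ⊢
    exact ⟨by linarith [ubrq_nonneg b], by linarith [ubrq_nonneg a]⟩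
  have hne : {x : (𝓞 K)ˣ × (𝓞 K)ˣ | ubrP K x ∧ ubrq x.1 + ubrq x.2 ≤ R}.Nonempty :=
    ⟨x0, hx0, le_refl _⟩
  obtain ⟨x, hx, hmin⟩ := Set.exists_min_image _ (fun x => ubrq x.1 + ubrq x.2) hfin hne
  refine ⟨x, hx.1, fun y hy => ?_⟩
  by_cases hyR : ubrq y.1 + ubrq y.2 ≤ R
  · exact hmin y ⟨hy, hyR⟩
  · linarith [hx.2]

theorem st_UBR (hUB0 : ST_UB0) : ST_UBR := by
  obtain ⟨c0, hc0, hU⟩ := hUB0
  refine ⟨c0 / 2, by positivity, fun K _ _ hK hcard => ?_⟩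
  obtain ⟨x, hx, hmin⟩ := ubr_min (ubrP_exists K hK hcard)
  refine ⟨x.1, x.2, hx.1, fun m n => ?_⟩
  -- lower bound for `q`
  have hq : ∀ u : (𝓞 K)ˣ, u ≠ 1 → u ≠ -1 → c0 ^ 2 ≤ ubrq u := by
    intro u h1 h2
    obtain ⟨σ, hσ⟩ := hU K hK u h1 h2
    have h3 : c0 ^ 2 ≤ (ubrL σ u) ^ 2 := by
      rw [← sq_abs (ubrL σ u)]
      exact pow_le_pow_left₀ hc0.le hσ 2
    exact h3.trans (Finset.single_le_sum (f := fun σ : K →+* ℂ => (ubrL σ u) ^ 2)
        (fun _ _ => sq_nonneg _) (Finset.mem_univ σ))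
  have hq1 : c0 ^ 2 ≤ ubrq x.1 := by
    apply hq
    · intro h
      have := hx.2 1 0 (Or.inl (by simpa using h))
      omega
    · intro h
      have := hx.2 1 0 (Or.inr (by simpa using h))
      omega
  have hq2 : c0 ^ 2 ≤ ubrq x.2 := by
    apply hq
    · intro h
      have := hx.2 0 1 (Or.inl (by simpa using h))
      omega
    · intro h
      have := hx.2 0 1 (Or.inr (by simpa using h))
      omega
  -- reduction inequalities
  have hq2s : ∀ s : ℤ, ubrq x.2 ≤ ubrq (x.1 ^ s * x.2) := by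
    intro s
    have h1 := hmin _ (ubrP_shift hx s)
    simp only at h1
    linarith
  have hq1s : ∀ s : ℤ, ubrq x.1 ≤ ubrq (x.2 ^ s * x.1) := by
    intro s
    have h1 := hmin _ (ubrP_swap (ubrP_shift (ubrP_swap hx) s))
    simp only at h1
    linarith
  have hf1 : ∀ s : ℤ, ubrq (x.1 ^ s * x.2) = (s : ℝ) ^ 2 * ubrq x.1 + ubrq x.2 +
      2 * (s : ℝ) * ubrB x.1 x.2 := by
    intro s
    have h1 := ubrq_form x.1 x.2 s 1
    rw [zpow_one] at h1
    rw [h1]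
    push_cast
    ring
  have hf2 : ∀ s : ℤ, ubrq (x.2 ^ s * x.1) = (s : ℝ) ^ 2 * ubrq x.2 + ubrq x.1 +
      2 * (s : ℝ) * ubrB x.1 x.2 := by
    intro s
    have h1 := ubrq_form x.2 x.1 s 1
    rw [zpow_one] at h1
    rw [h1, ubrB_comm x.2 x.1]
    push_cast
    ring
  have hB1 : |2 * ubrB x.1 x.2| ≤ ubrq x.1 := by
    have h1 := hq2s 1
    have h2 := hq2s (-1)
    rw [hf1] at h1 h2
    push_cast at h1 h2
    rw [abs_le]
    constructor <;> linarith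
  have hB2 : |2 * ubrB x.1 x.2| ≤ ubrq x.2 := by
    have h1 := hq1s 1
    have h2 := hq1s (-1)
    rw [hf2] at h1 h2
    push_cast at h1 h2
    rw [abs_le]
    constructor <;> linarith
  -- the lower bound for the form
  have hform : 3 / 4 * (max |(m : ℝ)| |(n : ℝ)|) ^ 2 * c0 ^ 2 ≤ ubrq (x.1 ^ m * x.2 ^ n) := by
    rw [ubrq_form]
    set q1 := ubrq x.1
    set q2 := ubrq x.2
    set b := ubrB x.1 x.2
    have hb := neg_abs_le (2 * (m : ℝ) * (n : ℝ) * b)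
    have habs : |2 * (m : ℝ) * (n : ℝ) * b| = |(m : ℝ)| * |(n : ℝ)| * |2 * b| := by
      rw [show 2 * (m : ℝ) * (n : ℝ) * b = (m : ℝ) * (n : ℝ) * (2 * b) by ring, abs_mul, abs_mul]
    have hM : 0 ≤ |(m : ℝ)| * |(n : ℝ)| := by positivity
    set μ := min q1 q2 with hμ
    have hμ0 : c0 ^ 2 ≤ μ := le_min hq1 hq2
    have hbμ : |2 * b| ≤ μ := le_min hB1 hB2
    have h1 : |(m : ℝ)| * |(n : ℝ)| * |2 * b| ≤ |(m : ℝ)| * |(n : ℝ)| * μ :=
      mul_le_mul_of_nonneg_left hbμ hM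
    have h2 : (m : ℝ) ^ 2 * μ ≤ (m : ℝ) ^ 2 * q1 :=
      mul_le_mul_of_nonneg_left (min_le_left _ _) (sq_nonneg _)
    have h3 : (n : ℝ) ^ 2 * μ ≤ (n : ℝ) ^ 2 * q2 :=
      mul_le_mul_of_nonneg_left (min_le_right _ _) (sq_nonneg _)
    have h4 : 3 / 4 * (max |(m : ℝ)| |(n : ℝ)|) ^ 2 ≤
        (m : ℝ) ^ 2 + (n : ℝ) ^ 2 - |(m : ℝ)| * |(n : ℝ)| := by
      rw [← sq_abs (m : ℝ), ← sq_abs (n : ℝ)]
      rcases max_cases |(m : ℝ)| |(n : ℝ)| with ⟨h, -⟩ | ⟨h, -⟩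
      · rw [h]
        nlinarith [sq_nonneg (|(m : ℝ)| / 2 - |(n : ℝ)|)]
      · rw [h]
        nlinarith [sq_nonneg (|(n : ℝ)| / 2 - |(m : ℝ)|)]
    have hc2 : 0 ≤ c0 ^ 2 := sq_nonneg _
    have h5 : 3 / 4 * (max |(m : ℝ)| |(n : ℝ)|) ^ 2 * c0 ^ 2 ≤
        ((m : ℝ) ^ 2 + (n : ℝ) ^ 2 - |(m : ℝ)| * |(n : ℝ)|) * μ := by
      apply mul_le_mul h4 hμ0 hc2
      exact le_trans (by positivity) h4
    have h6 : ((m : ℝ) ^ 2 + (n : ℝ) ^ 2 - |(m : ℝ)| * |(n : ℝ)|) * μ =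
        (m : ℝ) ^ 2 * μ + (n : ℝ) ^ 2 * μ - |(m : ℝ)| * |(n : ℝ)| * μ := by ring
    rw [habs] at hb
    linarith
  -- a large conjugate
  by_contra hcon
  push Not at hcon
  have hcardE : Fintype.card (K →+* ℂ) = 3 := by
    rw [NumberField.Embeddings.card, hK]
  have hle : ∀ σ : K →+* ℂ, (ubrL σ (x.1 ^ m * x.2 ^ n)) ^ 2 <
      (c0 / 2 * max |(m : ℝ)| |(n : ℝ)|) ^ 2 := by
    intro σ
    rw [← sq_abs (ubrL σ (x.1 ^ m * x.2 ^ n))]
    exact pow_lt_pow_left₀ (hcon σ) (abs_nonneg _) (by norm_num)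
  have hne : (Finset.univ : Finset (K →+* ℂ)).Nonempty := by
    rw [← Finset.card_pos, Finset.card_univ, hcardE]
    norm_num
  have hsum : ubrq (x.1 ^ m * x.2 ^ n) <
      ∑ _σ : K →+* ℂ, (c0 / 2 * max |(m : ℝ)| |(n : ℝ)|) ^ 2 :=
    Finset.sum_lt_sum_of_nonempty hne fun σ _ => hle σ
  rw [Finset.sum_const, Finset.card_univ, hcardE, nsmul_eq_mul] at hsum
  push_cast at hsum
  nlinarith

end Pool.Helper99.BK
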